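import Pool.Agent.Q44.RatAppr
import Pool.Agent.Results.MP_05f553_nt.FewExceptions

/-!
# Philippon's inequality at the good rational approximations of real numbers

(1) Let `α ≥ 1`.  For all real numbers `ρ` outside a set of Hausdorff dimension at most `1 / α`, Philippon's inequality
with the constants `B`, `α`, `β ≥ 0` and `ε < 1 / 2`, `ε B ≥ 2`, holds for ALL rational numbers `x` and for the images
`y = (a r + b) / (c r + d)` of all but finitely many convergents `r` of the continued fraction of `ρ`, for all integers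
`a, b, c, d` with `a d ≠ b c`.
(2) For a fixed number `x` and `B ≥ 5` it holds for all `ρ` outside a set of Hausdorff dimension at most `1 / (2 α B)`.
The same for the rational numbers `r` of denominator `q` with `|ρ - r| ≤ q ^ (-τ)`, with the bounds `2 / (α τ)` and
`1 / (α B τ)` for the dimensions.
-/

set_option autoImplicit false

namespace Pool.Agent.Results.MP_05f553_nt.GoodApproximations

open Pool.Agent.Q44.CF

/-- the multiplicative height `max (|a|, |b|)` of `r = a / b` (lowest terms) -/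
def height (r : ℚ) : ℕ := max r.num.natAbs r.den

/-- The inequality of the question for the pair `(x, y)`; the sums are over the primes which divide
the numerator of `x y ^ B + 1`. -/
def Holds (B : ℕ) (α β ε : ℝ) (x y : ℚ) : Prop :=
  -(∑ p ∈ (x * y ^ B + 1).num.natAbs.primeFactors,
      Real.log ((padicNorm p (x * y ^ B + 1) : ℚ) : ℝ))
    ≤ α * (B : ℝ) * Real.log (height x) + ε * (B : ℝ) * Real.log (height y)
      + (B : ℝ) * (α * (B : ℝ) + ε) *
          (β + ∑ p ∈ (x * y ^ B + 1).num.natAbs.primeFactors, Real.log (p : ℝ))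

lemma ht_eq (r : ℚ) : FewExceptions.ht r = Real.log (height r) := by
  unfold FewExceptions.ht height
  congr 1
  rw [Nat.cast_max, Nat.cast_natAbs, Int.cast_abs]

lemma holds_of {B : ℕ} {α β ε : ℝ} {x y : ℚ} (hβ : 0 ≤ β) (hα : 0 ≤ α) (hB : 0 < B)
    (hε : 2 ≤ ε * B) (h : FewExceptions.Holds B α 0 (2 / B) x y) : Holds B α β ε x y := by
  unfold FewExceptions.Holds at h
  rw [ht_eq, ht_eq] at h
  have hB' : (0 : ℝ) < B := by exact_mod_cast hB
  have hεB : 2 / (B : ℝ) ≤ ε := by
    rw [div_le_iff₀ hB']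
    exact hε
  have hy : 0 ≤ Real.log (height y) := Real.log_natCast_nonneg _
  have hs : 0 ≤ ∑ p ∈ (x * y ^ B + 1).num.natAbs.primeFactors, Real.log (p : ℝ) :=
    Finset.sum_nonneg fun p _ => Real.log_natCast_nonneg _
  refine h.trans ?_
  have h1 : 2 / (B : ℝ) * (B : ℝ) * Real.log (height y) ≤ ε * (B : ℝ) * Real.log (height y) :=
    mul_le_mul_of_nonneg_right (mul_le_mul_of_nonneg_right hεB hB'.le) hy
  have h2 : (0 : ℝ) ≤ 2 / B := by positivity
  have h3 : (B : ℝ) * (α * (B : ℝ) + 2 / B) *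
      (0 + ∑ p ∈ (x * y ^ B + 1).num.natAbs.primeFactors, Real.log (p : ℝ)) ≤
      (B : ℝ) * (α * (B : ℝ) + ε) *
        (β + ∑ p ∈ (x * y ^ B + 1).num.natAbs.primeFactors, Real.log (p : ℝ)) := by
    have h4 : 0 ≤ α * (B : ℝ) := by positivity
    refine mul_le_mul (mul_le_mul_of_nonneg_left (by linarith) hB'.le) (by linarith) (by linarith) ?_
    exact mul_nonneg hB'.le (by linarith)
  linarith

/-- the inequality of the question for `(x, y)`, for all `β ≥ 0` and `ε < 1 / 2`, `ε B ≥ 2` -/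
def All (B : ℕ) (α : ℝ) (x y : ℚ) : Prop :=
  ∀ β ε : ℝ, 0 ≤ β → ε < 1 / 2 → 2 ≤ ε * B → x ≠ 0 → y ≠ 0 → x * y ^ B ≠ 1 → x * y ^ B ≠ -1 →
    Holds B α β ε x y

lemma five_le {B : ℕ} {ε : ℝ} (hε : ε < 1 / 2) (hεB : 2 ≤ ε * B) : 5 ≤ B := by
  by_contra hcon
  have h1 : (B : ℝ) ≤ 4 := by
    have : B ≤ 4 := by omega
    exact_mod_cast this
  rcases (Nat.cast_nonneg B : (0 : ℝ) ≤ B).eq_or_lt with h2 | h2
  · rw [← h2, mul_zero] at hεB
    linarith
  · have h3 : ε * B < 1 / 2 * B := mul_lt_mul_of_pos_right hε h2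
    linarith

lemma mem_of {B : ℕ} {α : ℝ} (hα : 1 ≤ α) {x y : ℚ} (h : ¬ All B α x y) : 5 ≤ B ∧
    ∀ N : ℕ, y.num.natAbs ≤ N → y.den ≤ N → (x, y) ∈ FewExceptions.Exceptions B α 0 (2 / B) N := by
  unfold All at h
  push Not at h
  obtain ⟨β, ε, hβ, hε, hεB, hx, hy, h1, h2, hn⟩ := h
  have hB5 := five_le hε hεB
  refine ⟨hB5, fun N h3 h4 => ⟨hx, hy, h1, h2, ?_, ?_⟩⟩
  · refine max_le ?_ (by exact_mod_cast h4)
    have h5 : ((y.num.natAbs : ℕ) : ℝ) ≤ N := by exact_mod_cast h3
    rwa [Nat.cast_natAbs, Int.cast_abs] at h5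
  · intro h5
    exact hn (holds_of hβ (by linarith) (by omega) hεB h5)

/-- **Theorem.** (1) Let `α ≥ 1` and `B` be any natural number. In the sense of `AtRationalApproximations (2 / α)`
(images under integral Möbius transformations of the convergents of the continued fraction, or of other good rational
approximations, of all real numbers outside sets of small Hausdorff dimension) the numbers `y` satisfy Philippon's
inequality with ALL rational numbers `x` and all `β ≥ 0`, `ε < 1 / 2`, `ε B ≥ 2`.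
(2) For a single `x` and `B ≥ 5` this holds in the sense of `AtRationalApproximations (1 / (α B))`. -/
theorem result :
    (∀ (α : ℝ) (B : ℕ), 1 ≤ α → AtRationalApproximations (2 / α) (fun y => ∀ x : ℚ, All B α x y)) ∧
    (∀ (α : ℝ) (B : ℕ) (x : ℚ), 1 ≤ α → 5 ≤ B →
      AtRationalApproximations (1 / (α * B)) (fun y => All B α x y)) := by
  refine ⟨fun α B hα => ?_, fun α B x hα hB => ?_⟩
  · have hα0 : (0 : ℝ) < α := by linarith
    refine atRat_of (B := fun y => ¬ ∀ x : ℚ, All B α x y) (by positivity) ?_ (fun y hy => hy)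
    intro t ht
    by_cases hB : 5 ≤ B
    · have hB' : (5 : ℝ) ≤ B := by exact_mod_cast hB
      have hB0 : (0 : ℝ) < B := by linarith
      obtain ⟨C, hC⟩ := FewExceptions.result B α 0 (2 / B) (t - 2 / α) hα le_rfl
        (by rw [div_lt_iff₀ hB0]; linarith) (by rw [div_mul_cancel₀ _ hB0.ne']) (by linarith)
      rw [add_sub_cancel] at hC
      refine ⟨C, fun N hN => ?_⟩
      obtain ⟨h1, h2, -⟩ := hC N (by exact_mod_cast hN)
      refine le_trans (Nat.cast_le.2 ?_) h2
      refine le_trans (Set.ncard_le_ncard ?_ (h1.image Prod.snd)) (Set.ncard_image_le h1)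
      rintro y ⟨h3, h4, h5⟩
      push Not at h5
      obtain ⟨x, hx⟩ := h5
      exact ⟨(x, y), (mem_of hα hx).2 N h3 h4, rfl⟩
    · refine ⟨0, fun N _ => ?_⟩
      rw [zero_mul, Set.eq_empty_of_forall_notMem (s := {r : ℚ | r.num.natAbs ≤ N ∧ r.den ≤ N ∧
        ¬ ∀ x : ℚ, All B α x r}) ?_]
      · simp
      · rintro y ⟨-, -, h5⟩
        push Not at h5
        obtain ⟨x, hx⟩ := h5
        exact hB (mem_of hα hx).1
  · have hα0 : (0 : ℝ) < α := by linarith
    have hB' : (5 : ℝ) ≤ B := by exact_mod_cast hB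
    have hB0 : (0 : ℝ) < B := by linarith
    refine atRat_of (B := fun y => ¬ All B α x y) (by positivity) ?_ (fun y hy => hy)
    intro t ht
    obtain ⟨C, hC⟩ := FewExceptions.result B α 0 (2 / B) (t - 1 / (α * B)) hα le_rfl
      (by rw [div_lt_iff₀ hB0]; linarith) (by rw [div_mul_cancel₀ _ hB0.ne']) (by linarith)
    rw [add_sub_cancel] at hC
    refine ⟨C, fun N hN => ?_⟩
    obtain ⟨h1, -, h2⟩ := hC N (by exact_mod_cast hN)
    refine le_trans (Nat.cast_le.2 ?_) (h2 x)
    have hfin : {y : ℚ | (x, y) ∈ FewExceptions.Exceptions B α 0 (2 / B) N}.Finite :=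
      (h1.image Prod.snd).subset fun y hy => ⟨(x, y), hy, rfl⟩
    refine Set.ncard_le_ncard ?_ hfin
    rintro y ⟨h3, h4, h5⟩
    exact (mem_of hα h5).2 N h3 h4

end Pool.Agent.Results.MP_05f553_nt.GoodApproximations
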