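import Pool.Agent.Results.MP_05f553_nt.FewExceptions
import Pool.Agent.Q21.DW.Cnt
import Pool.Agent.Q233.AM.Multiples

/-!
# Philippon's inequality for all pairs `(x, y)` with a coordinate of `y` near the multiples of a real number

`AtRealMultiples G` (see `Pool.Agent.Q233.AM.Multiples`) says: for `0 < θ < 1` there is `κ > 0` such that for every index
`i` and all large `X` and all real `y ∈ [X ^ (1 - θ), 2 X ^ (1 - θ)]` outside a set of measure at most
`X ^ (1 - θ - κ)`, for all `k ≤ X ^ θ` but at most `X ^ (θ - κ)` EVERY positive integer `m` with `|m - k y| ≤ X ^ κ` has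
the property `G i`; and the same for the numbers `y = α 2 ^ ((1 - θ) n)`, `X = 2 ^ n`, `n` large, for almost every
`α ∈ [1, 2]`.

1. Let `A ≥ 1` and `α > 2 A`. Philippon's inequality for ALL nonzero rational `x`, all `y` with numerator `± m` or
   denominator `m` and of height at most `m ^ A`, and all `β ≥ 0` and `ε < 1 / 2` with `ε B ≥ 2` is such a property (of
   `B` and `m`). For `A = 1` these are all `y` of height `m`.
2. Let `α ≥ 1`, `B ≥ 5` and `A < α B`. The inequality for a given `x` (the family of the properties is indexed by all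
   rational `x`) and all such `y`, `β`, `ε` is such a property.
-/

set_option autoImplicit false

namespace Pool.Agent.Results.MP_05f553_nt.HeightsAtRealMultiples

/-- the multiplicative height `max (|a|, |b|)` of `r = a / b` (lowest terms) -/
def height (r : ℚ) : ℕ := max r.num.natAbs r.den

/-- The inequality of the question for the pair `(x, y)`; the sums are over the primes which divide
the numerator of `x y ^ B + 1`. -/
def Holds (B : ℕ) (α β ε : ℝ) (x y : ℚ) : Prop :=
  -(∑ p ∈ (x * y ^ B + 1).num.natAbs.primeFactors,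
      Real.log ((padicNorm p (x * y ^ B + 1) : ℚ) : ℝ))
    ≤ α * (B : ℝ) * Real.log (height x) + ε * (B : ℝ) * Real.log (height y)
      + (B : ℝ) * (α * (B : ℝ) + ε) *
          (β + ∑ p ∈ (x * y ^ B + 1).num.natAbs.primeFactors, Real.log (p : ℝ))

lemma ht_eq (r : ℚ) : FewExceptions.ht r = Real.log (height r) := by
  unfold FewExceptions.ht height
  congr 1
  rw [Nat.cast_max, Nat.cast_natAbs, Int.cast_abs]

lemma holds_of {B : ℕ} {α β ε : ℝ} {x y : ℚ} (hβ : 0 ≤ β) (hα : 0 ≤ α) (hB : 0 < B)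
    (hε : 2 ≤ ε * B) (h : FewExceptions.Holds B α 0 (2 / B) x y) : Holds B α β ε x y := by
  unfold FewExceptions.Holds at h
  rw [ht_eq, ht_eq] at h
  have hB' : (0 : ℝ) < B := by exact_mod_cast hB
  have hεB : 2 / (B : ℝ) ≤ ε := by
    rw [div_le_iff₀ hB']
    exact hε
  have hy : 0 ≤ Real.log (height y) := Real.log_natCast_nonneg _
  have hs : 0 ≤ ∑ p ∈ (x * y ^ B + 1).num.natAbs.primeFactors, Real.log (p : ℝ) :=
    Finset.sum_nonneg fun p _ => Real.log_natCast_nonneg _
  refine h.trans ?_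
  have h1 : 2 / (B : ℝ) * (B : ℝ) * Real.log (height y) ≤ ε * (B : ℝ) * Real.log (height y) :=
    mul_le_mul_of_nonneg_right (mul_le_mul_of_nonneg_right hεB hB'.le) hy
  have h2 : (0 : ℝ) ≤ 2 / B := by positivity
  have h3 : (B : ℝ) * (α * (B : ℝ) + 2 / B) *
      (0 + ∑ p ∈ (x * y ^ B + 1).num.natAbs.primeFactors, Real.log (p : ℝ)) ≤
      (B : ℝ) * (α * (B : ℝ) + ε) *
        (β + ∑ p ∈ (x * y ^ B + 1).num.natAbs.primeFactors, Real.log (p : ℝ)) := by
    have h4 : 0 ≤ α * (B : ℝ) := by positivity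
    refine mul_le_mul (mul_le_mul_of_nonneg_left (by linarith) hB'.le) (by linarith) (by linarith) ?_
    exact mul_nonneg hB'.le (by linarith)
  linarith

/-- `y` has numerator `± m` or denominator `m`, and height at most `m ^ A` -/
def Has (A : ℝ) (m : ℕ) (y : ℚ) : Prop :=
  (y.num.natAbs = m ∨ y.den = m) ∧ ((height y : ℕ) : ℝ) ≤ (m : ℝ) ^ A

/-- **Theorem.** (1) Let `A ≥ 1` and `α > 2 A`. Philippon's inequality with the constants `B`, `α`, `β ≥ 0` and
`ε < 1 / 2`, `ε B ≥ 2`, holds for all nonzero rational numbers `x`, `y` with `x y ^ B ≠ 1, -1` such that the height of `y`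
is at most `m ^ A` and `m` is the numerator `± m` or the denominator of `y`, for the `m` near the multiples of almost all
real numbers (`AtRealMultiples`).
(2) Let `α ≥ 1`, `B ≥ 5` and `1 ≤ A < α B`. For each `x` it holds for all such `y` with `m` near the multiples of almost
all real numbers. -/
theorem result :
    (∀ A α : ℝ, 1 ≤ A → 2 * A < α → Pool.Agent.Q233.AM.AtRealMultiples (fun (B m : ℕ) =>
      ∀ β ε : ℝ, 0 ≤ β → ε < 1 / 2 → 2 ≤ ε * B → ∀ x y : ℚ, x ≠ 0 → y ≠ 0 → x * y ^ B ≠ 1 →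
        x * y ^ B ≠ -1 → Has A m y → Holds B α β ε x y)) ∧
    (∀ (A α : ℝ) (B : ℕ), 1 ≤ A → 1 ≤ α → 5 ≤ B → A < α * B →
      Pool.Agent.Q233.AM.AtRealMultiples (fun (x : ℚ) (m : ℕ) =>
      ∀ β ε : ℝ, 0 ≤ β → ε < 1 / 2 → 2 ≤ ε * B → ∀ y : ℚ, x ≠ 0 → y ≠ 0 → x * y ^ B ≠ 1 →
        x * y ^ B ≠ -1 → Has A m y → Holds B α β ε x y)) := by
  have hcast : ∀ y : ℚ, max |((y.num : ℤ) : ℝ)| ((y.den : ℕ) : ℝ) = ((height y : ℕ) : ℝ) := by
    intro y
    unfold height
    rw [Nat.cast_max, Nat.cast_natAbs, Int.cast_abs]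
  -- the exceptions of height at most `X ^ A`
  have hpow : ∀ (A : ℝ) (m N : ℕ), 1 ≤ A → m ≤ N → (m : ℝ) ^ A ≤ (N : ℝ) ^ A := fun A m N hA hmN =>
    Real.rpow_le_rpow (Nat.cast_nonneg m) (by exact_mod_cast hmN) (by linarith)
  refine ⟨fun A α hA hα => ?_, fun A α B hA hα hB hAB => ?_⟩
  · have hα0 : (0 : ℝ) < α := by linarith
    refine Pool.Agent.Q233.AM.atRealMultiples_of (s := 2 * A / α) (B := fun (B m : ℕ) => 5 ≤ B ∧
      ((∃ t ∈ FewExceptions.Exceptions B α 0 (2 / B) ((m : ℝ) ^ A), t.2.num.natAbs = m) ∨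
        ∃ t ∈ FewExceptions.Exceptions B α 0 (2 / B) ((m : ℝ) ^ A), t.2.den = m)) (by positivity)
      (by rw [div_lt_one hα0]; exact hα) (fun B => ?_) ?_
    · by_cases hB : 5 ≤ B
      · have hB' : (5 : ℝ) ≤ B := by exact_mod_cast hB
        have hB0 : (0 : ℝ) < B := by linarith
        have hcount : ∀ δ : ℝ, 0 < δ → ∃ C : ℝ, ∀ X : ℕ, 1 ≤ X →
            (FewExceptions.Exceptions B α 0 (2 / B) ((X : ℝ) ^ A)).Finite ∧
            ((FewExceptions.Exceptions B α 0 (2 / B) ((X : ℝ) ^ A)).ncard : ℝ) ≤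
              C * (X : ℝ) ^ (2 * A / α + δ) := by
          intro δ hδ
          obtain ⟨C, hC⟩ := FewExceptions.result B α 0 (2 / B) (δ / A) (by linarith) le_rfl
            (by rw [div_lt_iff₀ hB0]; linarith) (by rw [div_mul_cancel₀ _ hB0.ne']) (by positivity)
          refine ⟨C, fun X hX => ?_⟩
          have hX' : (1 : ℝ) ≤ X := by exact_mod_cast hX
          have h1 := hC ((X : ℝ) ^ A) (Real.one_le_rpow hX' (by linarith))
          refine ⟨h1.1, h1.2.1.trans (le_of_eq ?_)⟩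
          rw [← Real.rpow_mul (by linarith)]
          congr 2
          field_simp
        have key : ∀ size : ℚ × ℚ → ℕ, Pool.Agent.Q21.DW.PS (2 * A / α) (fun m : ℕ =>
            ∃ t ∈ FewExceptions.Exceptions B α 0 (2 / B) ((m : ℝ) ^ A), size t = m) := by
          intro size
          refine Pool.Agent.Q21.DW.ps_of (T := ℚ × ℚ) (fun X => FewExceptions.Exceptions B α 0 (2 / B) ((X : ℝ) ^ A))
            size _ _ hcount ?_
          rintro m N hm hmN ⟨t, ht, htm⟩
          refine ⟨t, ⟨ht.1, ht.2.1, ht.2.2.1, ht.2.2.2.1, ?_, ht.2.2.2.2.2⟩, htm⟩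
          exact ht.2.2.2.2.1.trans (hpow A m N hA hmN)
        exact Pool.Agent.Q21.DW.PS.mono (Pool.Agent.Q21.DW.PS.or (key fun t => t.2.num.natAbs)
          (key fun t => t.2.den)) le_rfl (fun _ h => h.2)
      · exact Pool.Agent.Q21.DW.PS.mono (Pool.Agent.Q21.DW.ps_false (s := 2 * A / α) (B := fun _ => False)
          (fun _ h => h)) le_rfl (fun _ h => hB h.1)
    · intro B m hm hnot β ε hβ hε hεB x y hx hy hxy hxy' hym
      have hB5 : 5 ≤ B := by
        by_contra hcon
        have h1 : (B : ℝ) ≤ 4 := by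
          have : B ≤ 4 := by omega
          exact_mod_cast this
        rcases (Nat.cast_nonneg B : (0 : ℝ) ≤ B).eq_or_lt with h2 | h2
        · rw [← h2, mul_zero] at hεB
          linarith
        · have h3 : ε * B < 1 / 2 * B := mul_lt_mul_of_pos_right hε h2
          linarith
      refine holds_of hβ hα0.le (by omega) hεB ?_
      by_contra hcon
      have hmem : (x, y) ∈ FewExceptions.Exceptions B α 0 (2 / B) ((m : ℝ) ^ A) :=
        ⟨hx, hy, hxy, hxy', by rw [hcast]; exact hym.2, hcon⟩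
      rcases hym.1 with h1 | h1
      · exact hnot ⟨hB5, Or.inl ⟨(x, y), hmem, h1⟩⟩
      · exact hnot ⟨hB5, Or.inr ⟨(x, y), hmem, h1⟩⟩
  · have hα0 : (0 : ℝ) < α := by linarith
    have hB' : (5 : ℝ) ≤ B := by exact_mod_cast hB
    have hB0 : (0 : ℝ) < B := by linarith
    refine Pool.Agent.Q233.AM.atRealMultiples_of (s := A / (α * B)) (B := fun (x : ℚ) (m : ℕ) =>
      (∃ y : ℚ, (x, y) ∈ FewExceptions.Exceptions B α 0 (2 / B) ((m : ℝ) ^ A) ∧ y.num.natAbs = m) ∨
        ∃ y : ℚ, (x, y) ∈ FewExceptions.Exceptions B α 0 (2 / B) ((m : ℝ) ^ A) ∧ y.den = m) (by positivity)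
      (by rw [div_lt_one (by positivity)]; exact hAB) (fun x => ?_) ?_
    · have hcount : ∀ δ : ℝ, 0 < δ → ∃ C : ℝ, ∀ X : ℕ, 1 ≤ X →
          {y : ℚ | (x, y) ∈ FewExceptions.Exceptions B α 0 (2 / B) ((X : ℝ) ^ A)}.Finite ∧
          ({y : ℚ | (x, y) ∈ FewExceptions.Exceptions B α 0 (2 / B) ((X : ℝ) ^ A)}.ncard : ℝ) ≤
            C * (X : ℝ) ^ (A / (α * B) + δ) := by
        intro δ hδ
        obtain ⟨C, hC⟩ := FewExceptions.result B α 0 (2 / B) (δ / A) (by linarith) le_rfl
          (by rw [div_lt_iff₀ hB0]; linarith) (by rw [div_mul_cancel₀ _ hB0.ne']) (by positivity)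
        refine ⟨C, fun X hX => ?_⟩
        have hX' : (1 : ℝ) ≤ X := by exact_mod_cast hX
        have h1 := hC ((X : ℝ) ^ A) (Real.one_le_rpow hX' (by linarith))
        refine ⟨?_, (h1.2.2 x).trans (le_of_eq ?_)⟩
        · refine (h1.1.image Prod.snd).subset ?_
          intro y hy
          exact ⟨(x, y), hy, rfl⟩
        · rw [← Real.rpow_mul (by linarith)]
          congr 2
          field_simp
      have key : ∀ size : ℚ → ℕ, Pool.Agent.Q21.DW.PS (A / (α * B)) (fun m : ℕ =>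
          ∃ y : ℚ, (x, y) ∈ FewExceptions.Exceptions B α 0 (2 / B) ((m : ℝ) ^ A) ∧ size y = m) := by
        intro size
        refine Pool.Agent.Q21.DW.ps_of (T := ℚ)
          (fun X => {y : ℚ | (x, y) ∈ FewExceptions.Exceptions B α 0 (2 / B) ((X : ℝ) ^ A)}) size _ _ hcount ?_
        rintro m N hm hmN ⟨y, ht, htm⟩
        refine ⟨y, ⟨ht.1, ht.2.1, ht.2.2.1, ht.2.2.2.1, ?_, ht.2.2.2.2.2⟩, htm⟩
        exact ht.2.2.2.2.1.trans (hpow A m N hA hmN)
      exact Pool.Agent.Q21.DW.PS.or (key fun y => y.num.natAbs) (key fun y => y.den)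
    · intro x m hm hnot β ε hβ hε hεB y hx hy hxy hxy' hym
      refine holds_of hβ hα0.le (by omega) hεB ?_
      by_contra hcon
      have hmem : (x, y) ∈ FewExceptions.Exceptions B α 0 (2 / B) ((m : ℝ) ^ A) :=
        ⟨hx, hy, hxy, hxy', by rw [hcast]; exact hym.2, hcon⟩
      rcases hym.1 with h1 | h1
      · exact hnot (Or.inl ⟨y, hmem, h1⟩)
      · exact hnot (Or.inr ⟨y, hmem, h1⟩)

end Pool.Agent.Results.MP_05f553_nt.HeightsAtRealMultiples
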