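import Pool.Agent.H78R2.Phil.Main

/-!
# The exact strength of Philippon's conjecture: it is Oesterlé's weak abc conjecture

`Holds B α β ε`: the inequality of Q1 with these constants for all nonzero rational `x`, `y` with
`x y ^ B ≠ 1, -1`. Q1 asks for `B ≥ 1`, `α ≥ 1`, `β ≥ 0` and `0 < ε < 1 / 2` with this property.
We show that all these constants are irrelevant: the inequality for ONE choice of the constants
(even with `ε < 1` only and `α ≥ 0`) gives the inequality with `α = 1`, `β = 0`, every `ε > 0` and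
every large `B`, and both are equivalent to the weak abc conjecture of Oesterlé: there is `M` such
that `a + b < rad (a b (a + b)) ^ M` for all coprime positive `a`, `b`. The constants are explicit.
-/

set_option autoImplicit false

namespace Pool.Agent.Results.MP_05f553_nt.WeakAbcEquivalence

open Pool.Agent.H78R2.Phil

/-- Philippon's inequality with the constants `B, α, β, ε` holds for all nonzero rational `x, y`
with `x y ^ B ≠ 1, -1`. -/
def Holds (B : ℕ) (α β ε : ℝ) : Prop :=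
  ∀ x y : ℚ, x ≠ 0 → y ≠ 0 → x * y ^ B ≠ 1 → x * y ^ B ≠ -1 →
    -(∑ p ∈ (x * y ^ B + 1).num.natAbs.primeFactors,
        Real.log ((padicNorm p (x * y ^ B + 1) : ℚ) : ℝ))
      ≤ α * (B : ℝ) * Real.log (max |((x.num : ℤ) : ℝ)| ((x.den : ℕ) : ℝ))
        + ε * (B : ℝ) * Real.log (max |((y.num : ℤ) : ℝ)| ((y.den : ℕ) : ℝ))
        + (B : ℝ) * (α * (B : ℝ) + ε) *
            (β + ∑ p ∈ (x * y ^ B + 1).num.natAbs.primeFactors, Real.log (p : ℝ))

/-- The weak abc conjecture (Oesterlé) with the exponent `M`. -/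
def WeakAbc (M : ℝ) : Prop :=
  ∀ a b : ℕ, 0 < a → 0 < b → Nat.Coprime a b →
    ((a + b : ℕ) : ℝ) < ((∏ p ∈ (a * b * (a + b)).primeFactors, p : ℕ) : ℝ) ^ M

theorem holds_iff (B : ℕ) (α β ε : ℝ) : Holds B α β ε ↔ Ineq ε α β B := by
  have key : ∀ x y : ℚ, x * y ^ B + 1 ≠ 0 → (x * y ^ B ≠ -1 ∧
      ∑ p ∈ (x * y ^ B + 1).num.natAbs.primeFactors,
        Real.log ((padicNorm p (x * y ^ B + 1) : ℚ) : ℝ) =
      ∑ᶠ p ∈ S (x * y ^ B + 1), Real.log ((padicNorm p (x * y ^ B + 1) : ℚ) : ℝ) ∧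
      ∑ p ∈ (x * y ^ B + 1).num.natAbs.primeFactors, Real.log (p : ℝ) =
      ∑ᶠ p ∈ S (x * y ^ B + 1), Real.log (p : ℝ)) := by
    intro x y h
    refine ⟨fun h' => h (by rw [h']; norm_num), ?_, ?_⟩
    · rw [S_eq h, finsum_mem_coe_finset]
    · rw [S_eq h, finsum_mem_coe_finset]
  constructor
  · intro h x y hx hy h1 h2
    obtain ⟨h3, h4, h5⟩ := key x y h2
    have := h x y hx hy h1 h3
    rw [h4, h5] at this
    refine this.trans (le_of_eq ?_)
    unfold ht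
    ring
  · intro h x y hx hy h1 h2
    have h2' : x * y ^ B + 1 ≠ 0 := fun h' => h2 (eq_neg_of_add_eq_zero_left h')
    obtain ⟨h3, h4, h5⟩ := key x y h2'
    have := h x y hx hy h1 h2'
    rw [h4, h5]
    refine this.trans (le_of_eq ?_)
    unfold ht
    ring

theorem weak_iff (M : ℝ) : WeakAbc M ↔ ∀ a b : ℕ, 0 < a → 0 < b → Nat.Coprime a b →
    ((a + b : ℕ) : ℝ) < (Pool.Agent.H78R2.Abc.rad (a * b * (a + b)) : ℝ) ^ M := Iff.rfl

/-- from one choice of the constants to the weak abc conjecture, with an explicit exponent -/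
theorem weak_of_holds {B : ℕ} {α β ε : ℝ} (hB : 0 < B) (hα : 0 ≤ α) (hβ : 0 ≤ β) (hε : 0 < ε)
    (hε1 : ε < 1) (h : Holds B α β ε) :
    WeakAbc (2 + B * (α * B + ε) * (2 + 2 * β) / (1 - ε)) := by
  rw [holds_iff] at h
  have h1 := abc_of_ineq hε hε1 hα hβ hB h
  rw [weak_iff]
  intro a b ha hb hab
  have h2 := h1 a b (a + b) ha hb hab rfl
  set R : ℝ := (Pool.Agent.H78R2.Abc.rad (a * b * (a + b)) : ℝ) with hR
  set T : ℝ := B * (α * B + ε) with hT
  have hBR : (0 : ℝ) < B := by exact_mod_cast hB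
  have hT0 : 0 < T := by rw [hT]; positivity
  have h1ε : 0 < 1 - ε := by linarith
  -- the radical is at least `2`
  have hR2 : (2 : ℝ) ≤ R := by
    have : ∃ p, p ∈ (a * b * (a + b)).primeFactors := by
      have : a * b * (a + b) ≠ 1 := by
        intro h3
        have : a + b ∣ 1 := by rw [← h3]; exact dvd_mul_left _ _
        have := Nat.le_of_dvd one_pos this
        omega
      obtain ⟨p, hp, hpd⟩ := Nat.exists_prime_and_dvd this
      exact ⟨p, Nat.mem_primeFactors.2 ⟨hp, hpd, by positivity⟩⟩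
    obtain ⟨p, hp⟩ := this
    have h3 : p ∣ Pool.Agent.H78R2.Abc.rad (a * b * (a + b)) := by
      unfold Pool.Agent.H78R2.Abc.rad
      exact Finset.dvd_prod_of_mem id hp
    have h4 : p ≤ Pool.Agent.H78R2.Abc.rad (a * b * (a + b)) :=
      Nat.le_of_dvd (Pool.Agent.H78R2.Abc.rad_pos _) h3
    have h5 := (Nat.prime_of_mem_primeFactors hp).two_le
    rw [hR]
    exact_mod_cast h5.trans h4
  have hR0 : 0 < R := by linarith
  have hR1 : 1 < R := by linarith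
  -- the constant is a power of the radical
  have hc : 2 * Real.exp (T * β / (1 - ε)) < R ^ (2 + 2 * (T * β / (1 - ε))) := by
    have hu : 0 ≤ T * β / (1 - ε) := by positivity
    have e1 : Real.exp (T * β / (1 - ε)) ≤ R ^ (2 * (T * β / (1 - ε))) := by
      rw [Real.rpow_def_of_pos hR0]
      apply Real.exp_le_exp.2
      have h3 : (1 : ℝ) / 2 ≤ Real.log R := by
        have h4 : Real.log 2 ≤ Real.log R := Real.log_le_log (by norm_num) hR2
        have h5 := Real.log_two_gt_d9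
        linarith
      nlinarith
    have e2 : (2 : ℝ) < R ^ (2 : ℝ) := by
      rw [show (2 : ℝ) = ((2 : ℕ) : ℝ) by norm_num, Real.rpow_natCast]
      push_cast
      nlinarith
    rw [Real.rpow_add hR0]
    have e3 : 0 < Real.exp (T * β / (1 - ε)) := Real.exp_pos _
    calc 2 * Real.exp (T * β / (1 - ε)) < R ^ (2 : ℝ) * Real.exp (T * β / (1 - ε)) :=
          mul_lt_mul_of_pos_right e2 e3
      _ ≤ R ^ (2 : ℝ) * R ^ (2 * (T * β / (1 - ε))) := by
          apply mul_le_mul_of_nonneg_left e1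
          positivity
  calc ((a + b : ℕ) : ℝ) ≤ 2 * Real.exp (T * β / (1 - ε)) * R ^ (2 * T / (1 - ε)) := h2
    _ < R ^ (2 + 2 * (T * β / (1 - ε))) * R ^ (2 * T / (1 - ε)) :=
        mul_lt_mul_of_pos_right hc (Real.rpow_pos_of_pos hR0 _)
    _ = R ^ (2 + T * (2 + 2 * β) / (1 - ε)) := by
        rw [← Real.rpow_add hR0]
        congr 1
        ring

/-- from the weak abc conjecture to all constants -/
theorem holds_of_weak {M : ℝ} (hM : 1 ≤ M) (h : WeakAbc M) {ε : ℝ} (hε : 0 < ε) (hε1 : ε ≤ 1)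
    {B : ℕ} (hB : 2 * M ≤ ε * B) : Holds B 1 0 ε := by
  rw [holds_iff]
  have h1 : AbcWith M 1 := by
    intro a b c ha hb hab hc
    subst hc
    rw [one_mul]
    exact (h a b ha hb hab).le
  have := ineq_of_abc hM le_rfl h1 hε hε1 hB
  rwa [Real.log_one] at this

theorem weak_mono {M N : ℝ} (h : WeakAbc M) (hMN : M ≤ N) : WeakAbc N := by
  intro a b ha hb hab
  refine (h a b ha hb hab).trans_le (Real.rpow_le_rpow_of_exponent_le ?_ hMN)
  exact_mod_cast Finset.prod_pos fun p hp => (Nat.prime_of_mem_primeFactors hp).pos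

/-- **Philippon's conjecture is equivalent to the weak abc conjecture, and its constants are
irrelevant.** The following are equivalent: (1) Q1; (2) the inequality for some `B ≥ 1`, `α ≥ 0`,
`β ≥ 0` and `0 < ε < 1`; (3) for every `ε > 0` the inequality with `α = 1`, `β = 0` for all large
`B`; (4) the weak abc conjecture. Explicitly: (2) implies abc with the exponent
`2 + B (α B + ε) (2 + 2 β) / (1 - ε)`, and abc with the exponent `M ≥ 1` implies the inequality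
with `α = 1`, `β = 0` for all `0 < ε ≤ 1` and all `B ≥ 2 M / ε`. -/
theorem result :
    List.TFAE [
      ∃ B : ℕ, 0 < B ∧ ∃ α β ε : ℝ, 1 ≤ α ∧ 0 ≤ β ∧ 0 < ε ∧ ε < 1 / 2 ∧ Holds B α β ε,
      ∃ B : ℕ, 0 < B ∧ ∃ α β ε : ℝ, 0 ≤ α ∧ 0 ≤ β ∧ 0 < ε ∧ ε < 1 ∧ Holds B α β ε,
      ∀ ε : ℝ, 0 < ε → ∃ B₀ : ℕ, ∀ B : ℕ, B₀ ≤ B → Holds B 1 0 ε,
      ∃ M : ℝ, WeakAbc M] ∧
    (∀ (B : ℕ) (α β ε : ℝ), 0 < B → 0 ≤ α → 0 ≤ β → 0 < ε → ε < 1 → Holds B α β ε →
      WeakAbc (2 + B * (α * B + ε) * (2 + 2 * β) / (1 - ε))) ∧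
    (∀ (M ε : ℝ) (B : ℕ), 1 ≤ M → 0 < ε → ε ≤ 1 → 2 * M / ε ≤ B → WeakAbc M →
      Holds B 1 0 ε) := by
  refine ⟨?_, fun B α β ε hB hα hβ hε hε1 h => weak_of_holds hB hα hβ hε hε1 h,
    fun M ε B hM hε hε1 hB h => holds_of_weak hM h hε hε1 ?_⟩
  · have h12 : (∃ B : ℕ, 0 < B ∧ ∃ α β ε : ℝ, 1 ≤ α ∧ 0 ≤ β ∧ 0 < ε ∧ ε < 1 / 2 ∧
        Holds B α β ε) → ∃ B : ℕ, 0 < B ∧ ∃ α β ε : ℝ, 0 ≤ α ∧ 0 ≤ β ∧ 0 < ε ∧ ε < 1 ∧
        Holds B α β ε := by
      rintro ⟨B, hB, α, β, ε, h1, h2, h3, h4, h5⟩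
      exact ⟨B, hB, α, β, ε, by linarith, h2, h3, by linarith, h5⟩
    have h24 : (∃ B : ℕ, 0 < B ∧ ∃ α β ε : ℝ, 0 ≤ α ∧ 0 ≤ β ∧ 0 < ε ∧ ε < 1 ∧
        Holds B α β ε) → ∃ M : ℝ, WeakAbc M := by
      rintro ⟨B, hB, α, β, ε, h1, h2, h3, h4, h5⟩
      exact ⟨_, weak_of_holds hB h1 h2 h3 h4 h5⟩
    have h43 : (∃ M : ℝ, WeakAbc M) → ∀ ε : ℝ, 0 < ε → ∃ B₀ : ℕ, ∀ B : ℕ, B₀ ≤ B →
        Holds B 1 0 ε := by
      rintro ⟨M, hM⟩ ε hε
      have hM1 : WeakAbc (max M 1) := weak_mono hM (le_max_left _ _)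
      obtain ⟨B₀, hB₀⟩ := exists_nat_ge (2 * max M 1 / min ε 1)
      refine ⟨B₀, fun B hB => ?_⟩
      have hm : 0 < min ε 1 := lt_min hε one_pos
      have hBR : (B₀ : ℝ) ≤ B := by exact_mod_cast hB
      have h1 : Holds B 1 0 (min ε 1) := by
        apply holds_of_weak (le_max_right _ _) hM1 hm (min_le_right _ _)
        have := hB₀.trans hBR
        rw [div_le_iff₀ hm] at this
        linarith
      -- larger `ε`
      intro x y hx hy h2 h3
      refine (h1 x y hx hy h2 h3).trans ?_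
      have hle : min ε 1 ≤ ε := min_le_left _ _
      have hB0 : (0 : ℝ) ≤ B := Nat.cast_nonneg _
      have hy0 : 0 ≤ Real.log (max |((y.num : ℤ) : ℝ)| ((y.den : ℕ) : ℝ)) := ht_nonneg y
      have hs : 0 ≤ ∑ p ∈ (x * y ^ B + 1).num.natAbs.primeFactors, Real.log (p : ℝ) :=
        Finset.sum_nonneg fun p _ => Real.log_natCast_nonneg p
      have e1 : min ε 1 * (B : ℝ) ≤ ε * B := mul_le_mul_of_nonneg_right hle hB0
      have e2 : min ε 1 * (B : ℝ) * Real.log (max |((y.num : ℤ) : ℝ)| ((y.den : ℕ) : ℝ)) ≤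
          ε * B * Real.log (max |((y.num : ℤ) : ℝ)| ((y.den : ℕ) : ℝ)) :=
        mul_le_mul_of_nonneg_right e1 hy0
      have e3 : (B : ℝ) * (1 * (B : ℝ) + min ε 1) ≤ (B : ℝ) * (1 * (B : ℝ) + ε) :=
        mul_le_mul_of_nonneg_left (by linarith) hB0
      have e4 : (B : ℝ) * (1 * (B : ℝ) + min ε 1) *
            (0 + ∑ p ∈ (x * y ^ B + 1).num.natAbs.primeFactors, Real.log (p : ℝ)) ≤
          (B : ℝ) * (1 * (B : ℝ) + ε) *
            (0 + ∑ p ∈ (x * y ^ B + 1).num.natAbs.primeFactors, Real.log (p : ℝ)) :=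
        mul_le_mul_of_nonneg_right e3 (by linarith)
      linarith
    have h31 : (∀ ε : ℝ, 0 < ε → ∃ B₀ : ℕ, ∀ B : ℕ, B₀ ≤ B → Holds B 1 0 ε) →
        ∃ B : ℕ, 0 < B ∧ ∃ α β ε : ℝ, 1 ≤ α ∧ 0 ≤ β ∧ 0 < ε ∧ ε < 1 / 2 ∧ Holds B α β ε := by
      intro h
      obtain ⟨B₀, hB₀⟩ := h (1 / 4) (by norm_num)
      exact ⟨B₀ + 1, by omega, 1, 0, 1 / 4, le_rfl, le_rfl, by norm_num, by norm_num,
        hB₀ _ (by omega)⟩
    tfae_have 1 → 2 := h12
    tfae_have 2 → 4 := h24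
    tfae_have 4 → 3 := h43
    tfae_have 3 → 1 := h31
    tfae_finish
  · rw [div_le_iff₀ hε] at hB
    linarith

end Pool.Agent.Results.MP_05f553_nt.WeakAbcEquivalence
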